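import Pool.Agent.W295.NL.Stm

set_option autoImplicit false

/-!
Project NL, part TM: a near transversal from a ladder of Moebius type.
-/

namespace Pool.Agent.W578.NL.TM

open Pool.Agent.W295.NL

theorem mod_cases (N a b : ℕ) (ha : a < N) (hb : b < 2 * N) (h : a ≡ b [MOD N]) :
    b = a ∨ b = a + N := by
  have h1 : a % N = b % N := h
  rw [Nat.mod_eq_of_lt ha] at h1
  rcases Nat.lt_or_ge b N with hb1 | hb1
  · left
    rw [h1, Nat.mod_eq_of_lt hb1]
  · right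
    rw [Nat.mod_eq_sub_mod hb1, Nat.mod_eq_of_lt (by omega)] at h1
    omega

/-- the chosen cells -/
def d (n i : ℕ) : ℕ := i + (if i % 2 = 1 then n else 0)

theorem d_cases (n i : ℕ) : (i % 2 = 1 ∧ d n i = i + n) ∨ (i % 2 = 0 ∧ d n i = i) := by
  unfold d
  rcases Nat.mod_two_eq_zero_or_one i with h | h
  · right; simp [h]
  · left; simp [h]

theorem sep (n i j : ℕ) (hn : ∃ m, n = m + m) (hi : i < n - 1) (hj : j < n - 1)
    (h : d n j ≡ d n i [MOD 2 * n] ∨ d n j ≡ d n i + 1 [MOD 2 * n] ∨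
      d n j + 1 ≡ d n i [MOD 2 * n] ∨ d n j ≡ d n i + n [MOD 2 * n]) : i = j := by
  obtain ⟨m, hm⟩ := hn
  rcases d_cases n i with ⟨hi1, hi2⟩ | ⟨hi1, hi2⟩ <;>
  rcases d_cases n j with ⟨hj1, hj2⟩ | ⟨hj1, hj2⟩ <;>
  rw [hi2, hj2] at h <;>
  rcases h with h | h | h | h <;>
  rcases mod_cases _ _ _ (by omega) (by omega) h with h | h <;> omega

theorem main : Pool.Agent.W295.NL.S_TM := by
  intro Q L n hM
  obtain ⟨hne, hn, X, κ, hc, hκ, hX⟩ := hM
  have key : ∀ (a : Fin 3) (i j : Fin (n - 1)), X a (d n i) = X a (d n j) → i = j := by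
    intro a i j h
    refine Fin.ext (sep n i j hne i.2 j.2 ?_)
    rcases hX a _ _ h with h1 | ⟨_, h1⟩ | ⟨_, h1⟩ | ⟨_, _, h1⟩
    · exact Or.inl h1
    · exact Or.inr (Or.inl h1)
    · exact Or.inr (Or.inr (Or.inl h1))
    · exact Or.inr (Or.inr (Or.inr h1))
  refine ⟨fun i => X 0 (d n i), fun i => X 1 (d n i), fun i j h => key 0 i j h,
    fun i j h => key 1 i j h, fun i j h => key 2 i j ?_⟩
  rw [hc.sym, hc.sym]
  exact h

end Pool.Agent.W578.NL.TM
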